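import Pool.Agent.W79.BP.Defs

/-!
Project BP: the mean of `hh` over the automorphisms of `β`.
-/

set_option autoImplicit false

namespace Pool.Agent.W999.BPAvg

open scoped Classical
open Pool.Agent.W79.BP

/-- the automorphisms as a subgroup -/
def AuG {n : ℕ} (β : SimpleGraph (Fin n)) : Subgroup (Equiv.Perm (Fin n)) where
  carrier := {τ | SimpleGraph.comap (⇑τ) β = β}
  one_mem' := by
    show SimpleGraph.comap _ β = β
    ext u v
    simp
  mul_mem' := by
    intro a b ha hb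
    have ha' : SimpleGraph.comap (⇑a) β = β := ha
    have hb' : SimpleGraph.comap (⇑b) β = β := hb
    show SimpleGraph.comap (⇑(a * b)) β = β
    ext u v
    have h1 : β.Adj (a (b u)) (a (b v)) ↔ β.Adj (b u) (b v) := by
      conv_rhs => rw [← ha']
      rfl
    have h2 : β.Adj (b u) (b v) ↔ β.Adj u v := by
      conv_rhs => rw [← hb']
      rfl
    simp only [SimpleGraph.comap_adj, Equiv.Perm.mul_apply]
    exact h1.trans h2
  inv_mem' := by
    intro a ha
    have ha' : SimpleGraph.comap (⇑a) β = β := ha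
    show SimpleGraph.comap (⇑(a⁻¹)) β = β
    ext u v
    simp only [SimpleGraph.comap_adj]
    have h1 : β.Adj (a (a⁻¹ u)) (a (a⁻¹ v)) ↔ β.Adj (a⁻¹ u) (a⁻¹ v) := by
      conv_rhs => rw [← ha']
      rfl
    rw [← h1]
    simp

theorem mem_Au {n : ℕ} {β : SimpleGraph (Fin n)} {τ : Equiv.Perm (Fin n)} :
    τ ∈ Au β ↔ τ ∈ AuG β := by
  unfold Au
  rw [Finset.mem_filter]
  exact ⟨fun h => h.2, fun h => ⟨Finset.mem_univ _, h⟩⟩

theorem cy_sub {n : ℕ} {β : SimpleGraph (Fin n)} {τ : Equiv.Perm (Fin n)} (h : τ ∈ Au β)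
    (x : Fin n) : cy τ x ⊆ ob β x := by
  intro y hy
  unfold cy at hy
  rw [Finset.mem_filter] at hy
  obtain ⟨i, hi⟩ := hy.2
  unfold ob
  rw [Finset.mem_filter]
  exact ⟨Finset.mem_univ _, τ ^ i, mem_Au.2 ((AuG β).zpow_mem (mem_Au.1 h) i), hi⟩

/-- orbit-stabiliser -/
theorem orb {n : ℕ} (β : SimpleGraph (Fin n)) (x : Fin n) :
    (ob β x).card * ((Au β).filter (fun τ => τ x = x)).card = (Au β).card := by
  have h1 : (Au β).card = ∑ y ∈ ob β x, ((Au β).filter (fun τ => τ x = y)).card := by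
    refine Finset.card_eq_sum_card_fiberwise ?_
    intro τ hτ
    have hτ' : τ ∈ Au β := hτ
    show τ x ∈ (ob β x : Set (Fin n))
    rw [Finset.mem_coe]
    unfold ob
    rw [Finset.mem_filter]
    exact ⟨Finset.mem_univ _, τ, hτ', rfl⟩
  rw [h1]
  have h2 : ∀ y ∈ ob β x, ((Au β).filter (fun τ => τ x = y)).card =
      ((Au β).filter (fun τ => τ x = x)).card := by
    intro y hy
    unfold ob at hy
    rw [Finset.mem_filter] at hy
    obtain ⟨-, π, hπ, hπx⟩ := hy
    symm
    refine Finset.card_bij (fun τ _ => π * τ) ?_ ?_ ?_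
    · intro τ hτ
      rw [Finset.mem_filter] at hτ ⊢
      refine ⟨mem_Au.2 ((AuG β).mul_mem (mem_Au.1 hπ) (mem_Au.1 hτ.1)), ?_⟩
      rw [Equiv.Perm.mul_apply, hτ.2, hπx]
    · intro a _ b _ hab
      exact mul_left_cancel hab
    · intro τ hτ
      rw [Finset.mem_filter] at hτ
      refine ⟨π⁻¹ * τ, ?_, by simp⟩
      rw [Finset.mem_filter]
      refine ⟨mem_Au.2 ((AuG β).mul_mem ((AuG β).inv_mem (mem_Au.1 hπ)) (mem_Au.1 hτ.1)), ?_⟩
      rw [Equiv.Perm.mul_apply, hτ.2, ← hπx]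
      simp
  rw [Finset.sum_congr rfl h2, Finset.sum_const, smul_eq_mul]

theorem orb' {n : ℕ} (β : SimpleGraph (Fin n)) (x : Fin n) :
    (ob β x).card * ((Au β).filter (fun τ => τ x ≠ x)).card =
      (Au β).card * ((ob β x).card - 1) := by
  have h1 := orb β x
  have h2 := Finset.card_filter_add_card_filter_not (s := Au β) (fun τ => τ x = x)
  have h3 : (ob β x).card * ((Au β).filter (fun τ => τ x = x)).card +
      (ob β x).card * ((Au β).filter (fun τ => τ x ≠ x)).card =
      (ob β x).card * (Au β).card := by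
    rw [← Nat.mul_add, h2]
  rw [h1] at h3
  rw [Nat.mul_sub, Nat.mul_one, Nat.mul_comm (Au β).card]
  omega

theorem main : S_AVG := by
  intro n β
  have h1 : ∀ τ ∈ Au β, hh τ ≤ ∑ x : Fin n, (if τ x ≠ x then (ob β x).card else 0) := by
    intro τ hτ
    unfold hh
    rw [Finset.sum_filter]
    refine Finset.sum_le_sum (fun x _ => ?_)
    split_ifs
    · exact Finset.card_le_card (cy_sub hτ x)
    · exact le_refl _
  refine (Finset.sum_le_sum h1).trans ?_
  rw [Finset.sum_comm]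
  unfold DD
  rw [Finset.mul_sum]
  refine Finset.sum_le_sum (fun x _ => ?_)
  rw [← orb' β x, ← Finset.sum_filter, Finset.sum_const, smul_eq_mul, Nat.mul_comm]

end Pool.Agent.W999.BPAvg
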